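import Pool.Agent.W500.CS.Stm

/-!
# Project CQ (helper500), part GERM (helper347)
-/

set_option autoImplicit false

open Filter Topology Set

namespace Pool.Agent.W347.CQ

open Pool.Agent.W500.CS

theorem pos_case {h u : ℝ → ℝ} {m : ℕ} (hu : ContinuousAt u 0) (hu0 : 0 < u 0)
    (he : ∀ᶠ q in 𝓝 (0 : ℝ), h q = q ^ m * u q) :
    ∃ (c : ℝ) (m : ℕ), 0 < c ∧ ∀ᶠ q in 𝓝[>] (0 : ℝ), h q ≥ c * q ^ m := by
  refine ⟨u 0 / 2, m, by linarith, ?_⟩
  have h1 : ∀ᶠ q in 𝓝 (0 : ℝ), u 0 / 2 < u q := hu.eventually (lt_mem_nhds (by linarith))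
  filter_upwards [he.filter_mono nhdsWithin_le_nhds, h1.filter_mono nhdsWithin_le_nhds,
    self_mem_nhdsWithin] with q h2 h3 h4
  have h5 : (0 : ℝ) < q ^ m := pow_pos h4 m
  rw [h2]
  nlinarith

theorem main : S_GERM := by
  intro f g hf hg
  have hh : AnalyticAt ℝ (fun q => f q - g q) 0 := hf.sub hg
  rcases hh.eventually_eq_zero_or_eventually_ne_zero with h0 | h0
  · left
    filter_upwards [h0.filter_mono nhdsWithin_le_nhds] with q hq
    linarith
  · right
    have h1 : ∃ m : ℕ, ∃ u : ℝ → ℝ, AnalyticAt ℝ u 0 ∧ u 0 ≠ 0 ∧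
        ∀ᶠ q in 𝓝 (0 : ℝ), f q - g q = (q - 0) ^ m • u q := by
      rw [hh.exists_eventuallyEq_pow_smul_nonzero_iff]
      intro hz
      have h2 := (hz.filter_mono nhdsWithin_le_nhds).and h0
      obtain ⟨q, hq1, hq2⟩ := h2.exists
      exact hq2 hq1
    obtain ⟨m, u, hu, hu0, he⟩ := h1
    have he' : ∀ᶠ q in 𝓝 (0 : ℝ), f q - g q = q ^ m * u q := by
      filter_upwards [he] with q hq
      rw [hq, sub_zero, smul_eq_mul]
    rcases lt_or_gt_of_ne hu0 with h | h
    · right
      refine pos_case (h := fun q => g q - f q) (u := fun q => -u q) (m := m)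
        hu.continuousAt.neg (by simpa using h) ?_
      filter_upwards [he'] with q hq
      linarith
    · left
      exact pos_case (h := fun q => f q - g q) (u := u) (m := m) hu.continuousAt h he'

end Pool.Agent.W347.CQ
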